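import Pool.Agent.H26.Stat1

set_option autoImplicit false

namespace Pool.Agent.Results.MP_f38362_gt.Undetermined

open Set Filter Topology Pool.Agent.H26.Stat1

/-- `𝒟(X)`: the families of open sets whose union is dense. -/
def DF (X : Type) [TopologicalSpace X] : Set (Set (Set X)) :=
  {𝒰 | (∀ U ∈ 𝒰, IsOpen U) ∧ Dense (⋃₀ 𝒰)}

/-- ONE has a winning strategy in `G₁(𝒟,𝒟)`: `σ` answers the list of TWO's previous moves. -/
def OneWins (X : Type) [TopologicalSpace X] : Prop :=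
  ∃ σ : List (Set X) → Set (Set X), (∀ l, σ l ∈ DF X) ∧
    ∀ U : ℕ → Set X, (∀ n, U n ∈ σ ((List.range n).map U)) → ¬ Dense (⋃ n, U n)

/-- TWO has a winning strategy in `G₁(𝒟,𝒟)`: `τ` answers the list of ONE's previous moves and
ONE's current move. -/
def TwoWins (X : Type) [TopologicalSpace X] : Prop :=
  ∃ τ : List (Set (Set X)) → Set (Set X) → Set X, (∀ l, ∀ 𝒰 ∈ DF X, τ l 𝒰 ∈ 𝒰) ∧
    ∀ 𝒰 : ℕ → Set (Set X), (∀ n, 𝒰 n ∈ DF X) →
      Dense (⋃ n, τ ((List.range n).map 𝒰) (𝒰 n))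

/-- The open player has a winning strategy in the open-point game of Berner and Juhász: in each
inning he picks a non-empty open set, the point player picks a point in it, and the open player wins
if the set of picked points is dense. -/
def OpenWins (X : Type) [TopologicalSpace X] : Prop :=
  ∃ σ : List X → Set X, (∀ l, IsOpen (σ l) ∧ (σ l).Nonempty) ∧
    ∀ x : ℕ → X, (∀ n, x n ∈ σ ((List.range n).map x)) → Dense (range x)

/-- The point player has a winning strategy in the open-point game. -/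
def PointWins (X : Type) [TopologicalSpace X] : Prop :=
  ∃ τ : List (Set X) → Set X → X, (∀ l U, IsOpen U ∧ U.Nonempty → τ l U ∈ U) ∧
    ∀ U : ℕ → Set X, (∀ n, IsOpen (U n) ∧ (U n).Nonempty) →
      ¬ Dense (range fun n => τ ((List.range n).map U) (U n))

variable {K : Type}

def I (A : K → Set K) (F : Finset K) : Set K := ↑F ∪ ⋃ δ ∈ F, A δ

theorem I_mono (A : K → Set K) {F G : Finset K} (h : F ⊆ G) : I A F ⊆ I A G :=
  union_subset_union h (biUnion_subset_biUnion_left h)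

def X (_ : K → Set K) : Type := Finset K
def D (K : Type) : Type := Set K
instance : TopologicalSpace (D K) := ⊥
instance : DiscreteTopology (D K) := ⟨rfl⟩

def fs {A : K → Set K} (x : X A) : Finset K := x
def e (A : K → Set K) (x : X A) (F : Finset K) : D K := (↑(fs x) ∩ I A F : Set K)
instance (A : K → Set K) : TopologicalSpace (X A) := .induced (e A) inferInstance

def N (A : K → Set K) (c : Finset K × Finset K) : Set (X A) :=
  {y | ∀ ξ ∈ I A c.2, ξ ∈ fs y ↔ ξ ∈ c.1}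

variable {A : K → Set K}

theorem e_eq {x y : X A} {F : Finset K} : e A y F = e A x F ↔ y ∈ N A (fs x, F) :=
  Set.ext_iff.trans (forall_congr' fun ξ => by
    change (ξ ∈ fs y ∧ _ ↔ ξ ∈ fs x ∧ _) ↔ _
    tauto)

instance : T35Space (X A) :=
  IsEmbedding.t35Space (f := e A) ⟨⟨rfl⟩, fun x y h => Finset.ext fun ξ =>
    e_eq.1 (congrFun h {ξ}) ξ (Or.inl (by simp))⟩

theorem nhds_iff {x : X A} {U : Set (X A)} : U ∈ 𝓝 x ↔ ∃ F, N A (fs x, F) ⊆ U := by
  classical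
  have : 𝓝 x = ⨅ F, 𝓟 (N A (fs x, F)) := by
    rw [nhds_induced, nhds_pi, Filter.pi, comap_iInf]
    refine iInf_congr fun F => ?_
    rw [comap_comap, nhds_discrete, comap_pure]
    exact congrArg _ (Set.ext fun y => e_eq)
  rw [this, (hasBasis_iInf_principal (s := fun F => N A (fs x, F)) fun F G => ⟨F ∪ G, fun y hy ξ h =>
    hy ξ (I_mono A Finset.subset_union_left h), fun y hy ξ h =>
    hy ξ (I_mono A Finset.subset_union_right h)⟩).mem_iff]
  simp

theorem N_open (c : Finset K × Finset K) : IsOpen (N A c) :=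
  isOpen_iff_mem_nhds.2 fun _ hy => nhds_iff.2 ⟨c.2, fun _ hz ξ h => (hz ξ h).trans (hy ξ h)⟩

theorem N_self (c : Finset K × Finset K) : (show X A from c.1) ∈ N A c := fun _ _ => Iff.rfl

theorem dense_iff {U : Set (X A)} : Dense U ↔ ∀ c, (N A c ∩ U).Nonempty :=
  ⟨fun h c => h.inter_open_nonempty _ (N_open c) ⟨_, N_self c⟩, fun h x =>
    mem_closure_iff_nhds.2 fun _ ht => (nhds_iff.1 ht).elim fun F hF =>
      (h (fs x, F)).mono (inter_subset_inter_left _ hF)⟩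

def P (M : Set K) (c : Finset K × Finset K) : Prop := ↑c.1 ⊆ M ∧ ↑c.2 ⊆ M

theorem cnt_P {M : Set K} (hM : M.Countable) : {c | P M c}.Countable := by
  have : {F : Finset K | ↑F ⊆ M}.Countable :=
    ((countable_setOf_finite_subset hM).preimage (f := fun F : Finset K => (F : Set K))
      Finset.coe_injective).mono fun F hF => And.intro F.finite_toSet hF
  exact this.prod this

variable [LinearOrder K] [Big K]

theorem cnt_Iic (ξ : K) : (Iic ξ).Countable := Cardinal.le_aleph0_iff_set_countable.1 (Big.small ξ)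

omit [Big K] in
theorem bdd_fin {δ : K} (hδ : Cof δ) (s : Finset K) (h : ↑s ⊆ Iio δ) : ∃ ξ < δ, ↑s ⊆ Iic ξ := by
  obtain ⟨x, hx, hl⟩ := hδ
  refine ⟨(insert (x 0) s).max' (by simp), (Finset.max'_lt_iff _ _).2 fun y hy => ?_,
    fun y hy => Finset.le_max' _ _ (Finset.mem_insert_of_mem hy)⟩
  exact (Finset.mem_insert.1 hy).elim (fun h => h ▸ lt_of_lub hx hl 0) fun h' => h h'

theorem closed (out : List (Finset K × Finset K) → Finset K × Finset K) {S : Set K} (hS : Pos S) :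
    ∃ δ ∈ S, Cof δ ∧ ∀ l, (∀ c ∈ l, P (Iio δ) c) → P (Iio δ) (out l) := by
  have : ∀ ξ : K, ∃ b, ∀ l, (∀ c ∈ l, P (Iic ξ) c) → P (Iio b) (out l) := fun ξ => by
    haveI := (cnt_P (cnt_Iic ξ)).to_subtype
    obtain ⟨b, hb⟩ := Big.bdd (⋃ l : List {c | P (Iic ξ) c},
      (↑((out (l.map Subtype.val)).1 ∪ (out (l.map Subtype.val)).2) : Set K))
      (countable_le (countable_iUnion fun _ => Finset.countable_toSet _))
    refine ⟨b, fun l hl => ?_⟩
    lift l to List {c | P (Iic ξ) c} using hl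
    exact ⟨fun y hy => hb y (mem_iUnion.2 ⟨l, Finset.mem_union_left _ hy⟩),
      fun y hy => hb y (mem_iUnion.2 ⟨l, Finset.mem_union_right _ hy⟩)⟩
  choose g hg using this
  obtain ⟨δ, h1, h2, h3⟩ := hS g
  refine ⟨δ, h1, h2, fun l hl => ?_⟩
  obtain ⟨ξ, h4, h5⟩ := bdd_fin h2 (l.toFinset.biUnion fun c => c.1 ∪ c.2) fun y hy => by
    simp only [Finset.coe_biUnion, mem_iUnion, Finset.coe_union, Finset.mem_coe,
      List.mem_toFinset] at hy
    obtain ⟨c, hc, h | h⟩ := hy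
    exacts [(hl c hc).1 h, (hl c hc).2 h]
  have h6 := hg ξ l fun c hc => ⟨fun y hy => h5 (by simp; exact ⟨_, _, hc, Or.inl hy⟩),
    fun y hy => h5 (by simp; exact ⟨_, _, hc, Or.inr hy⟩)⟩
  exact ⟨h6.1.trans (Iio_subset_Iio (h3 ξ h4).le), h6.2.trans (Iio_subset_Iio (h3 ξ h4).le)⟩

variable (h1 : ∀ δ, A δ ⊆ Iio δ)
include h1

omit [Big K] in
theorem I_sub {F : Finset K} {δ : K} (h : ↑F ⊆ Iio δ) : I A F ⊆ Iio δ :=
  union_subset h (iUnion₂_subset fun γ hγ => (h1 γ).trans (Iio_subset_Iio (le_of_lt (h hγ))))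

theorem not_one (h2 : ∀ δ η, η < δ → (A δ ∩ Iio η).Finite) (hT : Pos {δ | A δ = ∅}) :
    ¬ OneWins (X A) := by
  rintro ⟨σ, hσ, hw⟩
  have : ∀ h c, ∃ U ∈ σ h, ∃ d : Finset K × Finset K, (show X A from d.1) ∈ N A c ∧
      N A d ⊆ U := fun h c => by
    obtain ⟨y, hy, U, hU, hy'⟩ := dense_iff.1 (hσ h).2 c
    obtain ⟨F, hF⟩ := nhds_iff.1 (((hσ h).1 U hU).mem_nhds hy')
    exact ⟨U, hU, (fs y, F), hy, hF⟩
  choose u hu d hd hd' using this
  let H : List (Finset K × Finset K) → List (Set (X A)) :=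
    fun l => l.rec [] fun c _ h => h ++ [u h c]
  obtain ⟨δ, hδ, hc, hcl⟩ := closed (fun l => d (H l.tail) (l.headD (∅, ∅))) hT
  obtain ⟨c, hc'⟩ := ((cnt_P ((cnt_Iic δ).mono Iio_subset_Iic_self))).exists_eq_range
    ⟨(∅, ∅), by simp [P]⟩
  let L : ℕ → List (Finset K × Finset K) := fun n => n.rec [] fun n l => c n :: l
  have hL : ∀ n, ∀ x ∈ L n, P (Iio δ) x := fun n => by
    induction n with
    | zero => simp [L]
    | succ n ih => exact List.forall_mem_cons.2 ⟨hc'.ge ⟨n, rfl⟩, ih⟩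
  have hH : ∀ n, (List.range n).map (fun n => u (H (L n)) (c n)) = H (L n) := fun n => by
    induction n with
    | zero => rfl
    | succ n ih => rw [List.range_succ, List.map_append, ih]; rfl
  refine hw (fun n => u (H (L n)) (c n)) (fun n => by rw [hH]; exact hu _ _)
    (dense_iff.2 fun ⟨x, F⟩ => ?_)
  have h3 : (⋃ γ ∈ F.filter (δ ≤ ·), A γ ∩ Iio δ).Finite :=
    (Finset.finite_toSet _).biUnion fun γ hγ => by
      rcases (Finset.mem_filter.1 hγ).2.eq_or_lt with rfl | h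
      exacts [by simp [show A δ = ∅ from hδ], h2 _ _ h]
  obtain ⟨n, hn⟩ := hc'.le (show P (Iio δ) (x.filter (· < δ), F.filter (· < δ) ∪ h3.toFinset) from
    ⟨fun y hy => (Finset.mem_filter.1 hy).2, fun y hy => (Finset.mem_union.1 hy).elim
      (fun h => (Finset.mem_filter.1 h).2) fun h => by
        obtain ⟨_, _, h⟩ := mem_iUnion₂.1 (h3.mem_toFinset.1 h)
        exact h.2⟩)
  have h4 : P (Iio δ) (d (H (L n)) (c n)) := hcl (L (n + 1)) (hL (n + 1))
  have h5 := hd (H (L n)) (c n)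
  refine ⟨((d (H (L n)) (c n)).1 ∪ x.filter (δ ≤ ·) : Finset K), fun ξ hξ => ?_,
    mem_iUnion.2 ⟨n, hd' _ _ fun ξ hξ => ?_⟩⟩
  · change ξ ∈ _ ∪ _ ↔ ξ ∈ x
    rw [Finset.mem_union, Finset.mem_filter]
    rcases lt_or_ge ξ δ with h | h
    · have h6 := h5 ξ (by
        rw [hn]
        rcases hξ with h6 | h6
        · exact Or.inl (Finset.mem_union_left _ (Finset.mem_filter.2 ⟨h6, h⟩))
        obtain ⟨γ, h6, h7⟩ := mem_iUnion₂.1 h6
        rcases lt_or_ge γ δ with h8 | h8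
        · exact Or.inr (mem_iUnion₂.2 ⟨γ, Finset.mem_union_left _ (Finset.mem_filter.2 ⟨h6, h8⟩), h7⟩)
        · exact Or.inl (Finset.mem_union_right _ (h3.mem_toFinset.2
            (mem_iUnion₂.2 ⟨γ, Finset.mem_filter.2 ⟨h6, h8⟩, h7, h⟩))))
      conv_rhs at h6 => rw [hn]
      rw [Finset.mem_filter] at h6
      change ξ ∈ (d (H (L n)) (c n)).1 ↔ _ at h6
      simp [h6, h, h.not_ge]
    · simp [h, show ξ ∉ (d (H (L n)) (c n)).1 from fun h' => (h4.1 h').not_ge h]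
  · change ξ ∈ _ ∪ _ ↔ _
    simp [(I_sub h1 h4.2 hξ).not_ge]

theorem not_two (hS : Pos {δ | ∀ η < δ, ∃ ξ ∈ A δ, η < ξ}) : ¬ TwoWins (X A) := by
  rintro ⟨τ, hτ, hw⟩
  have : ∀ h, ∃ d, ∀ c, ∃ 𝒰 ∈ DF (X A), N A c ⊆ N A d → τ h 𝒰 = N A c := fun h => by
    by_contra hc
    push Not at hc
    choose c hc using hc
    have h2 : range (fun d => N A (c d)) ∈ DF (X A) := by
      refine ⟨forall_mem_range.2 fun _ => N_open _, dense_iff.2 fun d => ?_⟩
      exact ⟨_, (hc d {univ} ⟨by simp, by simp⟩).1 (N_self (c d)), _, ⟨d, rfl⟩, N_self _⟩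
    obtain ⟨d, hd⟩ := hτ h _ h2
    exact (hc d _ h2).2 hd.symm
  choose d u hu hu' using this
  let H : List (Finset K × Finset K) → List (Set (Set (X A))) :=
    fun l => l.rec [] fun c _ h => h ++ [u h c]
  obtain ⟨δ, hδ, hc, hcl⟩ := closed (fun l => d (H l)) hS
  have : ∀ c : Finset K × Finset K, ∃ ξ, P (Iio δ) c → ξ ∈ A δ ∧ ξ ∉ I A c.2 := fun c => by
    by_cases h : P (Iio δ) c
    · obtain ⟨η, h2, h3⟩ := bdd_fin hc c.2 h.2
      obtain ⟨ζ, h4, h5⟩ := hδ η h2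
      exact ⟨ζ, fun _ => ⟨h4, fun h6 => lt_irrefl _
        (I_sub h1 (δ := ζ) (fun _ h => (h3 h).trans_lt h5) h6)⟩⟩
    · exact ⟨δ, fun h' => (h h').elim⟩
  choose p hp using this
  let c : List (Finset K × Finset K) → Finset K × Finset K := fun l =>
    (insert (p (d (H l))) (d (H l)).1, insert (p (d (H l))) (d (H l)).2)
  let L : ℕ → List (Finset K × Finset K) := fun n => n.rec [] fun _ l => c l :: l
  have hL : ∀ n, ∀ x ∈ L n, P (Iio δ) x := fun n => by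
    induction n with
    | zero => simp [L]
    | succ n ih =>
      have h2 := hcl _ ih
      have h3 := h1 _ (hp _ h2).1
      exact List.forall_mem_cons.2 ⟨⟨by simpa [c] using insert_subset h3 h2.1,
        by simpa [c] using insert_subset h3 h2.2⟩, ih⟩
  have hH : ∀ n, (List.range n).map (fun n => u (H (L n)) (c (L n))) = H (L n) := fun n => by
    induction n with
    | zero => rfl
    | succ n ih => rw [List.range_succ, List.map_append, ih]; rfl
  obtain ⟨y, h2, h3⟩ := dense_iff.1 (hw (fun n => u (H (L n)) (c (L n))) fun n => hu _ _) (∅, {δ})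
  obtain ⟨n, h3⟩ := mem_iUnion.1 h3
  obtain ⟨h4, h5⟩ := hp _ (hcl _ (hL n))
  rw [hH, hu' _ _ fun z hz ξ hξ => (hz ξ (I_mono A (Finset.subset_insert _ _) hξ)).trans
    (Finset.mem_insert.trans (or_iff_right fun h => h5 (by rw [← h]; exact hξ)))] at h3
  exact Finset.notMem_empty _ ((h2 _ (Or.inr (by simpa using h4))).1
    ((h3 _ (Or.inl (Finset.mem_insert_self _ _))).2 (Finset.mem_insert_self _ _)))

omit h1

def Y (_ : K → Set K) (_ : K → ℝ) : Type := K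

instance (A : K → Set K) (ψ : K → ℝ) : TopologicalSpace (Y A ψ) where
  IsOpen W := ∀ x ∈ W, ∃ V F, IsOpen V ∧ x ∈ ψ ⁻¹' V \ I A F ∧ ψ ⁻¹' V \ I A F ⊆ W
  isOpen_univ x _ := ⟨univ, ∅, isOpen_univ, ⟨trivial, by simp [I]⟩, subset_univ _⟩
  isOpen_inter s t hs ht x hx := by
    obtain ⟨V, F, h1, h2, h3⟩ := hs x hx.1
    obtain ⟨V', F', h4, h5, h6⟩ := ht x hx.2
    refine ⟨V ∩ V', F ∪ F', h1.inter h4, ⟨⟨h2.1, h5.1⟩, fun h => ?_⟩, fun y hy =>
      ⟨h3 ⟨hy.1.1, fun h => hy.2 (I_mono A Finset.subset_union_left h)⟩,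
        h6 ⟨hy.1.2, fun h => hy.2 (I_mono A Finset.subset_union_right h)⟩⟩⟩
    simp only [I, Finset.coe_union, Finset.set_biUnion_union, mem_union] at h
    exact h.elim (fun h => h.elim (fun h => h2.2 (Or.inl h)) fun h => h5.2 (Or.inl h))
      fun h => h.elim (fun h => h2.2 (Or.inr h)) fun h => h5.2 (Or.inr h)
  isOpen_sUnion s hs x := fun ⟨W, hW, hx⟩ => let ⟨V, F, h1, h2, h3⟩ := hs W hW x hx
    ⟨V, F, h1, h2, h3.trans (subset_sUnion_of_mem hW)⟩

variable {ψ : K → ℝ} {U : ℕ → Set ℝ} (hU : TopologicalSpace.IsTopologicalBasis (range U))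
  (h3 : ∀ k η, ∃ ξ, η < ξ ∧ ψ ξ ∈ U k)

include hU

omit [Big K] in
theorem Y_basis {W : Set (Y A ψ)} (h : IsOpen W) (h' : W.Nonempty) :
    ∃ k F, ψ ⁻¹' U k \ I A F ⊆ W := by
  obtain ⟨x, hx⟩ := h'
  obtain ⟨V, F, h1, h2, h3⟩ := h x hx
  obtain ⟨_, ⟨k, rfl⟩, -, h4⟩ := hU.exists_subset_of_mem_open h2.1 h1
  exact ⟨k, F, (diff_subset_diff_left (preimage_mono h4)).trans h3⟩

include h1 h3

theorem Y_open (k : ℕ) (F : Finset K) : IsOpen (show Set (Y A ψ) from ψ ⁻¹' U k \ I A F) ∧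
    (ψ ⁻¹' U k \ I A F).Nonempty := by
  refine ⟨fun x hx => ⟨_, F, hU.isOpen ⟨k, rfl⟩, hx, Subset.rfl⟩, ?_⟩
  obtain ⟨b, hb⟩ := Big.bdd _ (countable_le F.countable_toSet)
  obtain ⟨ξ, h4, h5⟩ := h3 k b
  exact ⟨ξ, h5, fun h => h4.not_gt (I_sub h1 hb h)⟩

theorem not_open (hS : Pos {δ | ∀ k, ∀ η < δ, ∃ ξ ∈ A δ, η < ξ ∧ ψ ξ ∈ U k}) :
    ¬ OpenWins (Y A ψ) := by
  rintro ⟨σ, hσ, hw⟩
  choose k F hF using fun l => Y_basis hU (hσ l).1 (hσ l).2
  obtain ⟨b, -⟩ := hS id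
  let H : List (Finset K × Finset K) → List (Y A ψ) := fun l =>
    (l.map fun c => c.1.toList.headD b).reverse
  obtain ⟨δ, hδ, hc, hcl⟩ := closed (fun l => (∅, F (H l))) hS
  have : ∀ h, ∃ ξ, ↑(F h) ⊆ Iio δ → ξ ∈ A δ ∧ ξ ∈ σ h := fun h => by
    by_cases h' : ↑(F h) ⊆ Iio δ
    · obtain ⟨η, h4, h5⟩ := bdd_fin hc _ h'
      obtain ⟨ζ, h6, h7, h8⟩ := hδ (k h) η h4
      exact ⟨ζ, fun _ => ⟨h6, hF h ⟨h8, fun h9 => lt_irrefl _
        (I_sub h1 (δ := ζ) (fun _ h => (h5 h).trans_lt h7) h9)⟩⟩⟩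
    · exact ⟨δ, fun h => (h' h).elim⟩
  choose p hp using this
  let L : ℕ → List (Finset K × Finset K) := fun n => n.rec [] fun _ l => ({p (H l)}, ∅) :: l
  have hL : ∀ n, ∀ x ∈ L n, P (Iio δ) x := fun n => by
    induction n with
    | zero => simp [L]
    | succ n ih =>
      exact List.forall_mem_cons.2 ⟨⟨by simpa using h1 _ (hp _ (hcl _ ih).2).1, by simp⟩, ih⟩
  have hH : ∀ n, (List.range n).map (fun n => p (H (L n))) = H (L n) := fun n => by
    induction n with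
    | zero => rfl
    | succ n ih =>
      rw [List.range_succ, List.map_append, ih]
      simp [H, show L (n + 1) = ({p (H (L n))}, ∅) :: L n from rfl]
      rfl
  obtain ⟨_, h4, n, rfl⟩ := (hw (fun n => p (H (L n))) fun n =>
    (congrArg σ (hH n)).ge (hp _ (hcl _ (hL n)).2).2).inter_open_nonempty _ (Y_open h1 hU h3 0 {δ}).1
    (Y_open h1 hU h3 0 {δ}).2
  exact h4.2 (Or.inr (mem_iUnion₂.2 ⟨δ, Finset.mem_singleton_self _, (hp _ (hcl _ (hL n)).2).1⟩))

theorem not_point (h2 : ∀ δ η, η < δ → (A δ ∩ Iio η).Finite) (hT : Pos {δ | A δ = ∅}) :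
    ¬ PointWins (Y A ψ) := by
  rintro ⟨τ, hτ, hw⟩
  let W : ℕ → Finset K → Set (Y A ψ) := fun n F => ψ ⁻¹' U n.unpair.1 \ I A F
  let H : List (Finset K × Finset K) → List (Set (Y A ψ)) :=
    fun l => l.rec [] fun c l h => h ++ [W l.length c.1]
  obtain ⟨δ, hδ, hc, hcl⟩ := closed
    (fun l => ({show K from τ (H l.tail) (W l.tail.length (l.headD (∅, ∅)).1)}, ∅)) hT
  obtain ⟨c, hc'⟩ := ((cnt_Iic δ).mono Iio_subset_Iic_self).exists_eq_range
    (let ⟨x, hx, hl⟩ := hc; ⟨x 0, lt_of_lub hx hl 0⟩)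
  let L : ℕ → List (Finset K × Finset K) :=
    fun n => n.rec [] fun n l => ((Finset.range n).image c, ∅) :: l
  have hL : ∀ n, ∀ x ∈ L n, P (Iio δ) x := fun n => by
    induction n with
    | zero => simp [L]
    | succ n ih =>
      exact List.forall_mem_cons.2 ⟨⟨by
        rw [hc', Finset.coe_image]; exact image_subset_range _ _, by simp⟩, ih⟩
  have hl : ∀ n, (L n).length = n := fun n => by
    induction n with
    | zero => rfl
    | succ n ih => exact congrArg Nat.succ ih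
  have hH : ∀ n, (List.range n).map (fun n => W n ((Finset.range n).image c)) = H (L n) :=
    fun n => by
      induction n with
      | zero => rfl
      | succ n ih =>
        rw [List.range_succ, List.map_append, ih]
        exact congrArg (fun m => H (L n) ++ [W m _]) (hl n).symm
  refine hw (fun n => W n ((Finset.range n).image c)) (fun n => Y_open h1 hU h3 _ _)
    (dense_iff_inter_open.2 fun V hV hV' => ?_)
  obtain ⟨k, F, hF⟩ := Y_basis hU hV hV'
  have h4 : ((↑F ∪ ⋃ γ ∈ F.filter (δ ≤ ·), A γ ∩ Iio δ) ∩ range c).Finite :=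
    (F.finite_toSet.union ((Finset.finite_toSet _).biUnion fun γ hγ => by
      rcases (Finset.mem_filter.1 hγ).2.eq_or_lt with rfl | h
      exacts [by simp [show A δ = ∅ from hδ], h2 _ _ h])).inter_of_left _
  obtain ⟨t, h5, h6⟩ := Finset.subset_set_image_iff.1
    (show ↑h4.toFinset ⊆ c '' univ by simp [inter_subset_right])
  obtain ⟨m, hm⟩ := t.exists_nat_subset_range
  have h7 : ∀ ξ < δ, ξ ∈ (↑F ∪ ⋃ γ ∈ F.filter (δ ≤ ·), A γ ∩ Iio δ) →
      ξ ∈ (Finset.range (k.pair m)).image c := fun ξ h h' => Finset.image_subset_image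
    (hm.trans (Finset.range_mono (Nat.right_le_pair k m)))
    (h6.ge (h4.mem_toFinset.2 ⟨h', hc'.le h⟩))
  have h8 := hτ (H (L (k.pair m))) _ (Y_open h1 hU h3 (k.pair m).unpair.1
    ((Finset.range (k.pair m)).image c))
  have h9 := (hcl (L (k.pair m + 1)) (hL (k.pair m + 1))).1 (Finset.mem_singleton_self _)
  change τ (H (L _)) (W (L _).length _) ∈ Iio δ at h9
  rw [hl] at h9
  refine ⟨_, hF ⟨(congrArg U (congrArg Prod.fst (Nat.unpair_pair k m))).le h8.1,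
    fun h => h8.2 ?_⟩, k.pair m, congrFun (congrArg τ (hH _)) _⟩
  rcases h with h | h
  · exact Or.inl (h7 _ h9 (Or.inl h))
  obtain ⟨γ, h, h'⟩ := mem_iUnion₂.1 h
  rcases lt_or_ge γ δ with h'' | h''
  · exact Or.inr (mem_iUnion₂.2 ⟨γ, h7 _ h'' (Or.inl h), h'⟩)
  · exact Or.inl (h7 _ h9 (Or.inr (mem_iUnion₂.2 ⟨γ, Finset.mem_filter.2 ⟨h, h''⟩, h', h9⟩)))

omit h1 h3 hU

theorem exists_psi (hU : ∀ k, IsOpen (U k) ∧ (U k).Nonempty) :
    ∃ ψ : K → ℝ, Function.Injective ψ ∧ ∀ k η, ∃ ξ, η < ξ ∧ ψ ξ ∈ U k := by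
  obtain ⟨k, hk⟩ := split (K := K) ℕ Cardinal.mk_le_aleph0
  have : ∀ ξ (x : ∀ η < ξ, ℝ), ∃ r ∈ U (k ξ), ∀ η h, x η h ≠ r := fun ξ x => by
    haveI := ((cnt_Iic ξ).mono Iio_subset_Iic_self).to_subtype
    obtain ⟨r, h1, h2⟩ := ((countable_range fun η : Iio ξ => x η η.2).dense_compl ℝ).inter_open_nonempty
      _ (hU (k ξ)).1 (hU (k ξ)).2
    exact ⟨r, h1, fun η h h' => h2 ⟨⟨η, h⟩, h'⟩⟩
  choose r hr hr' using this
  let ψ : K → ℝ := WellFoundedLT.fix r
  have hψ : ∀ ξ, ψ ξ = r ξ fun η _ => ψ η := fun ξ => WellFoundedLT.fix_eq _ _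
  refine ⟨ψ, .of_lt_imp_ne fun ξ η h => by rw [hψ η]; exact hr' η (fun η _ => ψ η) ξ h, fun j η => ?_⟩
  obtain ⟨η', h⟩ := exists_gt η
  obtain ⟨δ, h1, ⟨x, hx, hl⟩, h2⟩ := hk j fun _ => η'
  exact ⟨δ, h.trans (h2 _ (lt_of_lub hx hl 0)), by rw [hψ, ← show k δ = j from h1]; exact hr _ _⟩

/-- ZFC proves that there is a Tychonoff space on which the game `G₁(𝒟,𝒟)` is undetermined, and
that there is a Hausdorff space on which the open-point game is undetermined. -/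
theorem result :
    (∃ (X : Type) (_ : TopologicalSpace X), T35Space X ∧ ¬ OneWins X ∧ ¬ TwoWins X) ∧
    (∃ (X : Type) (_ : TopologicalSpace X), T2Space X ∧ ¬ OpenWins X ∧ ¬ PointWins X) := by
  classical
  obtain ⟨K, _, _⟩ := exists_big
  obtain ⟨a, ha⟩ := split (K := K) Bool Cardinal.mk_le_aleph0
  obtain ⟨B, hB, hB', hU⟩ := TopologicalSpace.exists_countable_basis ℝ
  obtain ⟨U, rfl⟩ := hB.exists_eq_range
    ((hU.exists_subset_of_mem_open (mem_univ 0) isOpen_univ).imp fun _ h => h.1)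
  obtain ⟨ψ, hψ, h3⟩ := exists_psi (K := K) (U := U) fun k =>
    ⟨hU.isOpen ⟨k, rfl⟩, nonempty_iff_ne_empty.2 fun h => hB' ⟨k, h⟩⟩
  let Q : K → (ℕ → K) → Prop := fun δ y => (∀ n, y n < δ ∧ ψ (y n) ∈ U n.unpair.1) ∧
    ∀ η < δ, ∀ᶠ n in atTop, η < y n
  let A : K → Set K := fun δ => if h : a δ = true ∧ ∃ y, Q δ y then range h.2.choose else ∅
  have h1 : ∀ δ, A δ ⊆ Iio δ := fun δ => by
    simp only [A]
    split_ifs with h
    exacts [range_subset_iff.2 fun n => (h.2.choose_spec.1 n).1, empty_subset _]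
  have h2 : ∀ δ η, η < δ → (A δ ∩ Iio η).Finite := fun δ η h => by
    simp only [A]
    split_ifs with h'
    · obtain ⟨n, hn⟩ := eventually_atTop.1 (h'.2.choose_spec.2 η h)
      refine ((finite_Iio n).image h'.2.choose).subset ?_
      rintro _ ⟨⟨m, rfl⟩, hm⟩
      exact ⟨m, not_le.1 fun h => (hn m h).not_gt hm, rfl⟩
    · simp
  have hT : Pos {δ | A δ = ∅} := fun g => by
    obtain ⟨δ, h, h'⟩ := ha false g
    exact ⟨δ, dif_neg fun h2 => by simp [h2.1] at h, h'⟩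
  have hS : Pos {δ | ∀ k, ∀ η < δ, ∃ ξ ∈ A δ, η < ξ ∧ ψ ξ ∈ U k} := fun g => by
    choose z hz hz' using h3
    choose b hb using fun η => Big.bdd _ (countable_le (countable_range fun k => z k η))
    obtain ⟨δ, h, ⟨x, hx, hl⟩, h'⟩ := ha true fun η => max (g η) (b η)
    have h4 : ∃ y, Q δ y := ⟨fun n => z n.unpair.1 (x n), fun n => ⟨(hb _ _ ⟨_, rfl⟩).trans
      ((le_max_right _ _).trans_lt (h' _ (lt_of_lub hx hl n))), hz' _ _⟩, fun η hη =>
        let ⟨n, hn⟩ := exists_of_lt_lub hl hη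
        (eventually_ge_atTop n).mono fun m hm => (hn.trans_le (hx.monotone hm)).trans (hz _ _)⟩
    refine ⟨δ, fun k η hη => ?_, ⟨x, hx, hl⟩, fun η hη => (le_max_left _ _).trans_lt (h' η hη)⟩
    obtain ⟨n, hn⟩ := eventually_atTop.1 (h4.choose_spec.2 η hη)
    have : A δ = range h4.choose := dif_pos ⟨h, h4⟩
    exact ⟨_, this ▸ mem_range_self (k.pair n), hn _ (Nat.right_le_pair k n),
      by simpa using (h4.choose_spec.1 (k.pair n)).2⟩
  refine ⟨⟨X A, inferInstance, inferInstance, not_one h1 h2 hT, not_two h1 fun g => ?_⟩,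
    Y A ψ, inferInstance, T2Space.of_injective_continuous (f := show Y A ψ → ℝ from ψ) hψ
      ⟨fun V hV x hx => ⟨V, ∅, hV, ⟨hx, by simp [I]⟩, diff_subset⟩⟩,
    not_open h1 hU h3 hS, not_point h1 hU h3 h2 hT⟩
  obtain ⟨δ, h, h'⟩ := hS g
  exact ⟨δ, fun η hη => (h 0 η hη).imp fun _ h => ⟨h.1, h.2.1⟩, h'⟩

end Pool.Agent.Results.MP_f38362_gt.Undetermined
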